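import Pool.Agent.W729.SJ.Defs

set_option autoImplicit false

namespace Pool.Agent.W729.SJ

open Function

variable {M : Type} [Monoid M]

/-- An injective cellular automaton has a finite memory set for its inverse. -/
theorem inverse_memory {A : Type} [Finite A] (τ : (M → A) → (M → A)) (hτ : IsCA M τ)
    (hinj : Injective τ) :
    ∃ T : Finset M, ∀ x x' : M → A, (∀ t ∈ T, τ x t = τ x' t) → x 1 = x' 1 := by
  obtain ⟨S, μ, hμ⟩ := hτ
  let _ : TopologicalSpace A := ⊥
  have : DiscreteTopology A := ⟨rfl⟩
  by_contra hcon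
  push Not at hcon
  have hne : (⋂ m : M, {p : (M → A) × (M → A) | p.1 1 ≠ p.2 1 ∧ τ p.1 m = τ p.2 m}).Nonempty := by
    apply CompactSpace.iInter_nonempty
    · intro m
      have h1 : {p : (M → A) × (M → A) | p.1 1 ≠ p.2 1 ∧ τ p.1 m = τ p.2 m} =
          (fun p : (M → A) × (M → A) =>
            ((p.1 1, p.2 1), (fun s : S => p.1 (s.1 * m)), (fun s : S => p.2 (s.1 * m)))) ⁻¹'
            {g : (A × A) × (S → A) × (S → A) | g.1.1 ≠ g.1.2 ∧ μ g.2.1 = μ g.2.2} := by
        ext p
        simp only [Set.mem_ofPred_eq, Set.mem_preimage, hμ]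
      rw [h1]
      apply IsClosed.preimage
      · fun_prop
      · exact (Set.toFinite _).isClosed
    · intro F
      obtain ⟨x, x', hx, hne⟩ := hcon F
      refine ⟨(x, x'), ?_⟩
      simp only [Set.mem_iInter]
      exact fun m hm => ⟨hne, hx m hm⟩
  obtain ⟨p, hp⟩ := hne
  rw [Set.mem_iInter] at hp
  have h1 : p.1 = p.2 := by
    apply hinj
    funext m
    exact (hp m).2
  exact (hp 1).1 (by rw [h1])

/-- If for every finite set `K` the strongly connected components of left multiplication by the
submonoid generated by `K` are finite, then the monoid is surjunctive. -/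
theorem surj_of_finite
    (hfin : ∀ (K : Finset M) (m : M),
      {m' : M | (∃ t ∈ Submonoid.closure (K : Set M), m' = t * m) ∧
        ∃ t ∈ Submonoid.closure (K : Set M), m = t * m'}.Finite) : Surjunctive M := by
  classical
  intro A _ τ hτ hinj d
  obtain ⟨T, hT⟩ := inverse_memory τ hτ hinj
  obtain ⟨S, μ, hμ⟩ := id hτ
  have hread' : ∀ (x x' : M → A) (m : M), (∀ s : S, x (s.1 * m) = x' (s.1 * m)) → τ x m = τ x' m := by
    intro x x' m h
    rw [hμ, hμ]
    congr 1
    funext s
    exact h s
  set N : Submonoid M := Submonoid.closure ((S ∪ T : Finset M) : Set M) with hNdef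
  have hSN : ∀ s ∈ S, s ∈ N := fun s hs =>
    Submonoid.subset_closure (by simp [hs])
  have hTN : ∀ t ∈ T, t ∈ N := fun t ht =>
    Submonoid.subset_closure (by simp [ht])
  apply attains_of_finite τ hτ
  apply finite_of_blocks τ (fun m' m => ∃ t ∈ N, m' = t * m)
  · exact fun m => ⟨1, N.one_mem, (one_mul m).symm⟩
  · rintro a b c ⟨t, ht, rfl⟩ ⟨t', ht', rfl⟩
    exact ⟨t * t', N.mul_mem ht ht', (mul_assoc _ _ _).symm⟩
  · intro x x' m h
    exact hread' x x' m (fun s => h _ ⟨s.1, hSN _ s.2, rfl⟩)
  · intro m₀ x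
    let C : Set M := {m' : M | (∃ t ∈ N, m' = t * m₀) ∧ ∃ t ∈ N, m₀ = t * m'}
    have hC : C.Finite := hfin (S ∪ T) m₀
    haveI : Finite C := hC.to_subtype
    let ext : (C → A) → (M → A) := fun c m => if h : m ∈ C then c ⟨m, h⟩ else x m
    have hext1 : ∀ (c : C → A) (m : C), ext c m.1 = c m := by
      intro c m
      simp only [ext, m.2, dif_pos]
    have hext2 : ∀ (c : C → A) (m : M), m ∉ C → ext c m = x m := by
      intro c m hm
      simp only [ext, hm, dif_neg, not_false_eq_true]
    let Φ : (C → A) → (C → A) := fun c m => τ (ext c) m.1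
    have hΦ : Injective Φ := by
      intro c c' hcc
      have hall : ∀ n ∈ N, τ (ext c) (n * m₀) = τ (ext c') (n * m₀) := by
        intro n hn
        by_cases hm : n * m₀ ∈ C
        · exact congrFun hcc ⟨n * m₀, hm⟩
        · apply hread'
          intro s
          have h1 : s.1 * (n * m₀) ∉ C := by
            rintro ⟨_, ⟨t, ht, h2⟩⟩
            apply hm
            refine ⟨⟨n, hn, rfl⟩, ⟨t * s.1, N.mul_mem ht (hSN _ s.2), ?_⟩⟩
            rw [mul_assoc, ← h2]
          rw [hext2 _ _ h1, hext2 _ _ h1]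
      funext m
      obtain ⟨⟨n, hn, hm⟩, _⟩ := m.2
      have hpull : ∀ (z : M → A) (t : M),
          τ (fun k => z (k * (n * m₀))) t = τ z (t * (n * m₀)) := by
        intro z t
        rw [hμ, hμ]
        congr 1
        funext s
        rw [mul_assoc]
      have h3 := hT (fun k => ext c (k * (n * m₀))) (fun k => ext c' (k * (n * m₀))) (by
        intro t ht
        rw [hpull, hpull]
        have h4 := hall (t * n) (N.mul_mem (hTN _ ht) hn)
        rwa [mul_assoc] at h4)
      simp only [one_mul] at h3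
      rw [← hm, hext1, hext1] at h3
      exact h3
    obtain ⟨c, hc⟩ := Finite.surjective_of_injective hΦ (fun m => d m.1)
    refine ⟨ext c, ?_, ?_⟩
    · intro m hm
      exact hext2 c m hm
    · intro m h1 h2
      exact congrFun hc ⟨m, h1, h2⟩

end Pool.Agent.W729.SJ
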