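import Pool.Agent.W729.SJ.Main
import Pool.Agent.W729.SJ.FinCase

set_option autoImplicit false

namespace Pool.Agent.W729.SJ

open Function

/-- The block of units can be solved with the remaining cells prescribed. -/
def BlockSolve (M : Type) [Monoid M] : Prop :=
  ∀ (A : Type) [Finite A] (τ : (M → A) → (M → A)) (S : Finset M) (μ : (S → A) → A),
    (∀ (x : M → A) (m : M), τ x m = μ (fun s => x (s.1 * m))) → Injective τ →
    ∀ (y : M → A) (d : Mˣ → A),
      ∃ c : M → A, (∀ m, ¬ IsUnit m → c m = y m) ∧ ∀ u : Mˣ, τ c u = d u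

variable {M : Type} [Monoid M]

theorem block_of_free
    (hF : ∀ (m : M) (u : Mˣ), m * u = m → u = 1)
    (hI : ∀ s t : M, IsUnit (s * t) → IsUnit s ∧ IsUnit t)
    (hU : Surjunctive Mˣ) : BlockSolve M := by
  intro A _ τ S μ hμ hinj y d
  exact solve_units hF hI hU τ S μ hμ hinj y d

theorem block_of_finite [Finite Mˣ]
    (hI : ∀ s t : M, IsUnit (s * t) → IsUnit s ∧ IsUnit t) : BlockSolve M := by
  classical
  intro A _ τ S μ hμ hinj y d
  let ex : (Mˣ → A) → (M → A) := fun a m => if h : IsUnit m then a h.unit else y m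
  have hex1 : ∀ (a : Mˣ → A) (u : Mˣ), ex a u = a u := by
    intro a u
    have h : IsUnit (u : M) := u.isUnit
    simp only [ex, h, dif_pos]
    congr 1
    exact Units.ext (IsUnit.unit_spec h)
  have hex2 : ∀ (a : Mˣ → A) (m : M), ¬ IsUnit m → ex a m = y m := by
    intro a m hm
    simp only [ex, hm, dif_neg, not_false_eq_true]
  let Φ : (Mˣ → A) → (Mˣ → A) := fun a u => τ (ex a) u
  have hΦ : Injective Φ := by
    intro a a' h
    have h1 : ex a = ex a' := by
      apply hinj
      funext m
      by_cases hm : IsUnit m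
      · obtain ⟨u, rfl⟩ := hm
        exact congrFun h u
      · rw [hμ, hμ]
        congr 1
        funext s
        have h2 : ¬ IsUnit (s.1 * m) := fun hc => hm (hI _ _ hc).2
        rw [hex2 _ _ h2, hex2 _ _ h2]
    funext u
    rw [← hex1 a u, ← hex1 a' u, h1]
  obtain ⟨a, ha⟩ := Finite.surjective_of_injective hΦ d
  exact ⟨ex a, fun m hm => hex2 a m hm, fun u => congrFun ha u⟩

/-- If only units stabilise an element from the left and the block of units can be solved, then the
monoid is surjunctive. -/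
theorem surj_of_left_block (hN : ∀ s m : M, s * m = m → IsUnit s)
    (hB : BlockSolve M) : Surjunctive M := by
  classical
  intro A _ τ hτ hinj d
  have hI := units_of_mul hN
  obtain ⟨S, μ, hμ⟩ := id hτ
  have hread' : ∀ (x x' : M → A) (m : M), (∀ s : S, x (s.1 * m) = x' (s.1 * m)) → τ x m = τ x' m := by
    intro x x' m h
    rw [hμ, hμ]
    congr 1
    funext s
    exact h s
  apply attains_of_finite τ hτ
  apply finite_of_blocks τ (fun m' m => ∃ t, m' = t * m)
  · exact fun m => ⟨1, (one_mul m).symm⟩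
  · rintro a b c ⟨t, rfl⟩ ⟨t', rfl⟩
    exact ⟨t * t', (mul_assoc _ _ _).symm⟩
  · intro x x' m h
    exact hread' x x' m (fun s => h _ ⟨s.1, rfl⟩)
  · intro m₀ x
    obtain ⟨c, hc1, hc2⟩ := hB A τ S μ hμ hinj (fun m => x (m * m₀))
      (fun u => d (u * m₀))
    -- invariance of the solution under the stabiliser of `m₀`
    have hinv : ∀ h : Mˣ, (h : M) * m₀ = m₀ → ∀ m, c (m * h) = c m := by
      intro h hh
      have h1 : (fun m => c (m * h)) = c := by
        apply hinj
        funext m
        by_cases hm : IsUnit m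
        · obtain ⟨u, rfl⟩ := hm
          have h2 : τ (fun m => c (m * h)) u = τ c ((u * h : Mˣ) : M) := by
            rw [hμ, hμ]
            congr 1
            funext s
            rw [Units.val_mul, mul_assoc]
          rw [h2, hc2, hc2, Units.val_mul, mul_assoc, hh]
        · apply hread'
          intro s
          have h3 : ¬ IsUnit (s.1 * m) := fun hc => hm (hI _ _ hc).2
          have h4 : ¬ IsUnit (s.1 * m * h) := fun hc => h3 (hI _ _ hc).1
          rw [hc1 _ h3, hc1 _ h4, mul_assoc, hh]
      intro m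
      exact congrFun h1 m
    have hwell : ∀ u u' : Mˣ, (u : M) * m₀ = u' * m₀ → c u = c u' := by
      intro u u' h
      have h1 : ((u⁻¹ * u' : Mˣ) : M) * m₀ = m₀ := by
        rw [Units.val_mul, mul_assoc, ← h, ← mul_assoc, Units.inv_mul, one_mul]
      have h2 := hinv _ h1 u
      rw [← Units.val_mul, mul_inv_cancel_left] at h2
      exact h2.symm
    let x' : M → A := fun m => if h : ∃ u : Mˣ, m = u * m₀ then c h.choose else x m
    have hx'1 : ∀ u : Mˣ, x' (u * m₀) = c u := by
      intro u
      have h : ∃ u' : Mˣ, (u : M) * m₀ = u' * m₀ := ⟨u, rfl⟩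
      simp only [x', h, dif_pos]
      exact hwell _ _ h.choose_spec.symm
    have hx'2 : ∀ m, (¬ ∃ u : Mˣ, m = u * m₀) → x' m = x m := by
      intro m h
      simp only [x', h, dif_neg, not_false_eq_true]
    refine ⟨x', ?_, ?_⟩
    · intro m hm
      apply hx'2
      rintro ⟨u, rfl⟩
      apply hm
      refine ⟨⟨u, rfl⟩, ⟨((u⁻¹ : Mˣ) : M), ?_⟩⟩
      rw [← mul_assoc, Units.inv_mul, one_mul]
    · rintro m ⟨t, rfl⟩ ⟨t', ht'⟩
      have h1 : IsUnit (t' * t) := by
        apply hN _ m₀
        rw [mul_assoc, ← ht']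
      obtain ⟨u, rfl⟩ := (hI _ _ h1).2
      rw [← hc2 u, hμ, hμ]
      congr 1
      funext s
      rw [← mul_assoc]
      by_cases hs : IsUnit (s.1 * (u : M))
      · obtain ⟨w, hw⟩ := hs
        rw [← hw, hx'1]
      · rw [hc1 _ hs]
        apply hx'2
        rintro ⟨w, hw⟩
        apply hs
        have h2 : (((w⁻¹ : Mˣ) : M) * (s.1 * u)) * m₀ = m₀ := by
          rw [mul_assoc, hw, ← mul_assoc, Units.inv_mul, one_mul]
        exact (hI _ _ (hN _ _ h2)).2

theorem units_of_mul_right (hN : ∀ m s : M, m * s = m → IsUnit s) (s t : M)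
    (h : IsUnit (s * t)) : IsUnit s ∧ IsUnit t := by
  obtain ⟨u, hu⟩ := h
  have h1 : s * (t * (u⁻¹ : Mˣ)) = 1 := by
    rw [← mul_assoc, ← hu, Units.mul_inv]
  have h0 : ((t * (u⁻¹ : Mˣ)) * s) * ((t * (u⁻¹ : Mˣ)) * s) = ((t * (u⁻¹ : Mˣ)) * s) := by
    calc ((t * (u⁻¹ : Mˣ)) * s) * ((t * (u⁻¹ : Mˣ)) * s)
        = (t * (u⁻¹ : Mˣ)) * (s * (t * (u⁻¹ : Mˣ))) * s := by simp only [mul_assoc]
      _ = (t * (u⁻¹ : Mˣ)) * s := by rw [h1, mul_one]
  have h2 : IsUnit ((t * (u⁻¹ : Mˣ)) * s) := hN _ _ h0
  have h3 : (t * (u⁻¹ : Mˣ)) * s = 1 := by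
    have h4 : ((t * (u⁻¹ : Mˣ)) * s) * ((t * (u⁻¹ : Mˣ)) * s) = ((t * (u⁻¹ : Mˣ)) * s) * 1 := by
      rw [mul_one]
      exact h0
    exact h2.mul_left_cancel h4
  have hs : IsUnit s := ⟨⟨s, t * (u⁻¹ : Mˣ), h1, h3⟩, rfl⟩
  refine ⟨hs, ?_⟩
  have ht : IsUnit (t * (u⁻¹ : Mˣ)) := ⟨⟨t * (u⁻¹ : Mˣ), s, h3, h1⟩, rfl⟩
  have h5 : t = t * (u⁻¹ : Mˣ) * u := by rw [mul_assoc, Units.inv_mul, mul_one]
  rw [h5]
  exact ht.mul u.isUnit

/-- If only units stabilise an element from the right and the block of units can be solved, then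
the monoid is surjunctive. -/
theorem surj_of_right_block (hN : ∀ m s : M, m * s = m → IsUnit s)
    (hB : BlockSolve M) : Surjunctive M := by
  classical
  intro A _ τ hτ hinj
  have hI := units_of_mul_right hN
  obtain ⟨T, hT⟩ := inverse_memory τ hτ hinj
  obtain ⟨S, μ, hμ⟩ := id hτ
  by_contra hns
  -- a letter of the alphabet
  have hA : Nonempty A := by
    by_contra hA
    rw [not_nonempty_iff] at hA
    apply hns
    intro d
    exact (hA.false (d 1)).elim
  obtain ⟨a₀⟩ := hA
  have hpull : ∀ (z : M → A) (g t : M), τ (fun k => z (k * g)) t = τ z (t * g) := by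
    intro z g t
    rw [hμ, hμ]
    congr 1
    funext s
    rw [mul_assoc]
  -- the local rule of a left inverse
  let σ₀ : (T → A) → A := fun y =>
    if h : ∃ x : M → A, ∀ t : T, τ x t.1 = y t then h.choose 1 else a₀
  have hσ₀ : ∀ x : M → A, σ₀ (fun t => τ x t.1) = x 1 := by
    intro x
    have h : ∃ x' : M → A, ∀ t : T, τ x' t.1 = τ x t.1 := ⟨x, fun _ => rfl⟩
    simp only [σ₀, h, dif_pos]
    exact hT _ _ (fun t ht => h.choose_spec ⟨t, ht⟩)
  let σ : (M → A) → (M → A) := fun d m => σ₀ (fun t => d (t.1 * m))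
  have hστ : ∀ x, σ (τ x) = x := by
    intro x
    funext m
    have h1 := hσ₀ (fun k => x (k * m))
    simp only [one_mul, hpull] at h1
    exact h1
  have hσpull : ∀ (z : M → A) (g t : M), σ (fun k => z (k * g)) t = σ z (t * g) := by
    intro z g t
    simp only [σ, mul_assoc]
  let X : (M → A) → (M → A) := fun c => τ (σ c)
  have hXpull : ∀ (z : M → A) (g t : M), X (fun k => z (k * g)) t = X z (t * g) := by
    intro z g t
    simp only [X]
    rw [← hpull]
    congr 1
    funext k
    exact hσpull z g k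
  -- the finite set of cells on which the exceptional set depends
  let E : Finset M := insert 1 ((T ×ˢ S).image (fun p => p.1 * p.2))
  have hE1 : (1 : M) ∈ E := Finset.mem_insert_self _ _
  have hEts : ∀ t ∈ T, ∀ s ∈ S, t * s ∈ E := by
    intro t ht s hs
    apply Finset.mem_insert_of_mem
    exact Finset.mem_image.2 ⟨(t, s), Finset.mem_product.2 ⟨ht, hs⟩, rfl⟩
  have hXE : ∀ c c' : M → A, (∀ e ∈ E, c e = c' e) → X c 1 = X c' 1 := by
    intro c c' h
    simp only [X]
    rw [hμ, hμ]
    congr 1
    funext s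
    simp only [σ, mul_one]
    congr 1
    funext t
    exact h _ (hEts _ t.2 _ s.2)
  -- propagation of an exception
  have hK : ∀ c : M → A, X c 1 ≠ c 1 → ∃ g : M, ¬ IsUnit g ∧ X c g ≠ c g := by
    intro c hc
    by_contra hcon
    push Not at hcon
    apply hc
    let z := σ c
    obtain ⟨x, hx1, hx2⟩ := hB A τ S μ hμ hinj z (fun u => c u)
    let c₁ : M → A := fun m => if IsUnit m then c m else X c m
    have hτx : τ x = c₁ := by
      funext m
      by_cases hm : IsUnit m
      · obtain ⟨u, rfl⟩ := hm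
        simp only [c₁, Units.isUnit, if_true]
        exact hx2 u
      · simp only [c₁, hm, if_false]
        change τ x m = τ z m
        rw [hμ, hμ]
        congr 1
        funext s
        exact hx1 _ (fun h => hm (hI _ _ h).2)
    have hσc₁ : σ c₁ = z := by
      funext m
      simp only [σ, z]
      congr 1
      funext t
      simp only [c₁]
      split_ifs with h
      · rfl
      · exact hcon _ h
    have hxz : x = z := by rw [← hστ x, hτx, hσc₁]
    have h1 : c₁ = X c := by rw [← hτx, hxz]
    have h2 := congrFun h1 1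
    simp only [c₁, isUnit_one, if_true] at h2
    exact h2.symm
  -- constant configurations are attained
  have hconst : X (fun _ => a₀) 1 = a₀ := by
    let π : A → A := fun a => μ (fun _ => a)
    have hπ : ∀ a, τ (fun _ => a) = fun _ => π a := by
      intro a
      funext m
      rw [hμ]
    have hπi : Injective π := by
      intro a b hab
      have h1 : (fun _ : M => a) = (fun _ : M => b) := by
        apply hinj
        rw [hπ, hπ, hab]
      exact congrFun h1 1
    obtain ⟨b, hb⟩ := Finite.surjective_of_injective hπi a₀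
    have h2 : (fun _ : M => a₀) = τ (fun _ => b) := by rw [hπ, hb]
    have h3 : X (fun _ => a₀) = fun _ => a₀ := by
      change τ (σ (fun _ => a₀)) = fun _ => a₀
      rw [h2, hστ]
    rw [h3]
  -- truncation to `E`
  let tr : (M → A) → (M → A) := fun c m => if m ∈ E then c m else a₀
  have htr : ∀ c : M → A, X (tr c) 1 = X c 1 := by
    intro c
    exact hXE (tr c) c (fun e he => by simp only [tr, he, if_true])
  have htr1 : ∀ c : M → A, tr c 1 = c 1 := by
    intro c
    simp only [tr, hE1, if_true]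
  have htr2 : ∀ (c : M → A) (m : M), tr c m ≠ a₀ → m ∈ E ∧ c m ≠ a₀ := by
    intro c m hm
    by_cases h : m ∈ E
    · simp only [tr, h, if_true] at hm
      exact ⟨h, hm⟩
    · exact absurd (by simp only [tr, h, if_false]) hm
  -- rank of an element inside `E`
  let r : M → ℕ := fun m => (E.filter (fun e => ∃ g, ¬ IsUnit g ∧ e = m * g)).card
  have hr : ∀ m g, ¬ IsUnit g → m * g ∈ E → r (m * g) < r m := by
    intro m g hg hmg
    apply Finset.card_lt_card
    refine ⟨?_, ?_⟩
    · intro e he
      obtain ⟨he1, g', hg', he2⟩ := Finset.mem_filter.1 he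
      refine Finset.mem_filter.2 ⟨he1, g * g', fun h => hg (hI _ _ h).1, ?_⟩
      rw [he2, mul_assoc]
    · intro hsub
      have h1 : m * g ∈ E.filter (fun e => ∃ g', ¬ IsUnit g' ∧ e = m * g') :=
        Finset.mem_filter.2 ⟨hmg, g, hg, rfl⟩
      obtain ⟨_, g', hg', h2⟩ := Finset.mem_filter.1 (hsub h1)
      exact hg' (hN _ _ h2.symm)
  -- exceptional configurations with support of large rank
  have hall : ∀ c : M → A, X c 1 = c 1 := by
    by_contra hcon
    push Not at hcon
    obtain ⟨c₀, hc₀⟩ := hcon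
    have hstep : ∀ n : ℕ, ∃ c : M → A, X c 1 ≠ c 1 ∧ ∀ m, c m ≠ a₀ → m ∈ E ∧ n ≤ r m := by
      intro n
      induction n with
      | zero =>
        refine ⟨tr c₀, ?_, ?_⟩
        · rw [htr, htr1]
          exact hc₀
        · intro m hm
          exact ⟨(htr2 _ _ hm).1, Nat.zero_le _⟩
      | succ n ih =>
        obtain ⟨c, hc1, hc2⟩ := ih
        obtain ⟨g, hg, hgc⟩ := hK c hc1
        refine ⟨tr (fun k => c (k * g)), ?_, ?_⟩
        · have e1 := htr (fun k => c (k * g))
          have e2 := htr1 (fun k => c (k * g))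
          have e3 := hXpull c g 1
          intro h
          apply hgc
          rw [← one_mul g, ← e3, ← e1, h, e2]
        · intro m hm
          obtain ⟨h, h0⟩ := htr2 (fun k => c (k * g)) m hm
          obtain ⟨h1, h2⟩ := hc2 _ h0
          exact ⟨h, lt_of_le_of_lt h2 (hr m g hg h1)⟩
    obtain ⟨c, hc1, hc2⟩ := hstep (E.card + 1)
    have h1 : c = fun _ => a₀ := by
      funext m
      by_contra hm
      have h2 := (hc2 m hm).2
      have h3 : r m ≤ E.card := Finset.card_filter_le _ _
      omega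
    rw [h1] at hc1
    exact hc1 hconst
  apply hns
  intro d
  refine ⟨σ d, ?_⟩
  funext m
  have h1 := hall (fun k => d (k * m))
  rw [hXpull] at h1
  simpa only [one_mul] using h1

theorem surj_of_stab
    (hst : (∀ m s : M, m * s = m → IsUnit s) ∨ (∀ m s : M, s * m = m → IsUnit s))
    (hU : (∀ (m : M) (u : Mˣ), m * u = m → u = 1) ∨ Finite Mˣ) :
    Surjunctive M ↔ Surjunctive Mˣ := by
  constructor
  · exact fun h => surj_of_hom (Units.coeHom M) Units.val_injective h
  · intro h
    have hI : ∀ s t : M, IsUnit (s * t) → IsUnit s ∧ IsUnit t := by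
      rcases hst with h1 | h1
      · exact units_of_mul_right h1
      · exact units_of_mul (fun s m => h1 m s)
    have hB : BlockSolve M := by
      rcases hU with h2 | h2
      · exact block_of_free h2 hI h
      · exact block_of_finite hI
    rcases hst with h1 | h1
    · exact surj_of_right_block h1 hB
    · exact surj_of_left_block (fun s m => h1 m s) hB

theorem free_op (hF : ∀ (u : Mˣ) (m : M), (u : M) * m = m → u = 1) :
    ∀ (m : Mᵐᵒᵖ) (u : (Mᵐᵒᵖ)ˣ), m * u = m → u = 1 := by
  intro m u hmu
  have h2 : (MulOpposite.unop (Units.opEquiv u) : Mˣ) = 1 := by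
    apply hF _ m.unop
    have h3 := congrArg MulOpposite.unop hmu
    rw [MulOpposite.unop_mul] at h3
    exact h3
  have h4 : Units.opEquiv u = 1 := MulOpposite.unop_injective h2
  exact (MulEquiv.map_eq_one_iff _).1 h4

theorem surj_units_op : Surjunctive (Mᵐᵒᵖ)ˣ ↔ Surjunctive Mˣ :=
  ⟨fun h => surj_of_hom (unitsOp M).symm.toMonoidHom (unitsOp M).symm.injective h,
    fun h => surj_of_hom (unitsOp M).toMonoidHom (unitsOp M).injective h⟩

theorem surj_op_of_stab
    (hst : (∀ m s : M, m * s = m → IsUnit s) ∨ (∀ m s : M, s * m = m → IsUnit s))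
    (hU : (∀ (u : Mˣ) (m : M), (u : M) * m = m → u = 1) ∨ Finite Mˣ) :
    Surjunctive Mᵐᵒᵖ ↔ Surjunctive Mˣ := by
  rw [← surj_units_op]
  apply surj_of_stab
  · rcases hst with h | h
    · right
      intro m s hsm
      have h2 : m.unop * s.unop = m.unop := by
        rw [← MulOpposite.unop_mul, hsm]
      exact isUnit_unop.1 (h _ _ h2)
    · left
      intro m s hsm
      have h2 : s.unop * m.unop = m.unop := by
        rw [← MulOpposite.unop_mul, hsm]
      exact isUnit_unop.1 (h _ _ h2)
  · rcases hU with h | h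
    · left
      exact free_op h
    · right
      exact Finite.of_equiv _ (unitsOp M).symm.toEquiv

end Pool.Agent.W729.SJ
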