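import Mathlib

set_option autoImplicit false

namespace Pool.Agent.W729.SJ

open Function

/-- `τ` is a cellular automaton over the monoid `M` with alphabet `A`:
`τ x m = μ (s ↦ x (s * m))` for a finite memory set `S` and a local rule `μ`. -/
def IsCA (M : Type) [Monoid M] {A : Type} (τ : (M → A) → (M → A)) : Prop :=
  ∃ (S : Finset M) (μ : (S → A) → A),
    ∀ (x : M → A) (m : M), τ x m = μ (fun s => x (s.1 * m))

/-- The monoid `M` is surjunctive: every injective cellular automaton over `M` with a finite
alphabet is surjective. -/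
def Surjunctive (M : Type) [Monoid M] : Prop :=
  ∀ (A : Type) [Finite A] (τ : (M → A) → (M → A)), IsCA M τ → Injective τ → Surjective τ

/-- Submonoids (up to isomorphism) of surjunctive monoids are surjunctive. -/
theorem surj_of_hom {M N : Type} [Monoid M] [Monoid N] (φ : N →* M) (hφ : Injective φ)
    (h : Surjunctive M) : Surjunctive N := by
  classical
  intro A _ τ hτ hinj d
  obtain ⟨S, μ, hμ⟩ := hτ
  let T : (M → A) → (M → A) := fun x m => μ (fun s => x (φ s.1 * m))
  have hT : IsCA M T := by
    refine ⟨S.image φ, fun g => μ (fun s => g ⟨φ s.1, Finset.mem_image_of_mem φ s.2⟩), ?_⟩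
    intro x m
    rfl
  have key : ∀ (x : M → A) (m : M) (n : N), τ (fun k => x (φ k * m)) n = T x (φ n * m) := by
    intro x m n
    rw [hμ]
    simp only [T, map_mul, mul_assoc]
  have hTi : Injective T := by
    intro x x' hx
    funext m
    have h1 : (fun k => x (φ k * m)) = (fun k => x' (φ k * m)) := by
      apply hinj
      funext n
      rw [key, key, hx]
    have h2 := congrFun h1 1
    simpa using h2
  obtain ⟨x, hx⟩ := h A T hT hTi (fun m => if hm : ∃ n, φ n = m then d hm.choose else d 1)
  refine ⟨fun k => x (φ k), ?_⟩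
  funext n
  have h3 := key x 1 n
  simp only [mul_one] at h3
  rw [h3, hx]
  have hex : ∃ k, φ k = φ n := ⟨n, rfl⟩
  simp only [hex, dif_pos]
  congr 1
  exact hφ hex.choose_spec

/-- Compactness step: if a cellular automaton attains every finite pattern of `d`, it attains `d`. -/
theorem attains_of_finite {M : Type} [Monoid M] {A : Type} [Finite A]
    (τ : (M → A) → (M → A)) (hτ : IsCA M τ) (d : M → A)
    (h : ∀ F : Finset M, ∃ x : M → A, ∀ m ∈ F, τ x m = d m) : ∃ x, τ x = d := by
  obtain ⟨S, μ, hμ⟩ := hτ
  letI : TopologicalSpace A := ⊥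
  haveI : DiscreteTopology A := ⟨rfl⟩
  have hne : (⋂ m : M, {x : M → A | τ x m = d m}).Nonempty := by
    apply CompactSpace.iInter_nonempty
    · intro m
      have h1 : {x : M → A | τ x m = d m} =
          (fun x : M → A => (fun s : S => x (s.1 * m))) ⁻¹' {g : S → A | μ g = d m} := by
        ext x
        simp only [Set.mem_setOf_eq, Set.mem_preimage, hμ]
      rw [h1]
      apply IsClosed.preimage
      · exact continuous_pi (fun s => continuous_apply _)
      · exact (Set.toFinite _).isClosed
    · intro F
      obtain ⟨x, hx⟩ := h F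
      exact ⟨x, by simpa using hx⟩
  obtain ⟨x, hx⟩ := hne
  refine ⟨x, funext fun m => ?_⟩
  simpa using Set.mem_iInter.1 hx m

/-- Block-triangular step.  `le m' m` is any preorder for which every cell reads only cells below
itself.  If every block can be solved with the rest fixed, every finite pattern is attained. -/
theorem finite_of_blocks {M : Type} [Monoid M] {A : Type}
    (τ : (M → A) → (M → A)) (le : M → M → Prop)
    (hrefl : ∀ m, le m m) (htrans : ∀ a b c, le a b → le b c → le a c)
    (hread : ∀ (x x' : M → A) (m : M), (∀ m', le m' m → x m' = x' m') → τ x m = τ x' m)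
    (d : M → A)
    (hsolve : ∀ (m₀ : M) (x : M → A), ∃ x' : M → A,
      (∀ m, ¬ (le m m₀ ∧ le m₀ m) → x' m = x m) ∧ ∀ m, le m m₀ → le m₀ m → τ x' m = d m) :
    ∀ F : Finset M, ∃ x : M → A, ∀ m ∈ F, τ x m = d m := by
  classical
  intro F
  induction' hn : F.card using Nat.strong_induction_on with n ih generalizing F
  rcases F.eq_empty_or_nonempty with rfl | hF
  · exact ⟨d, by simp⟩
  · -- a maximal element
    have hmax : ∃ m₀ ∈ F, ∀ m ∈ F, le m₀ m → le m m₀ := by
      letI : Preorder M :=
        { le := le
          le_refl := hrefl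
          le_trans := htrans }
      obtain ⟨m₀, hm₀, hm⟩ := F.exists_maximal hF
      exact ⟨m₀, hm₀, fun m hmF hle => hm hmF hle⟩
    obtain ⟨m₀, hm₀, hm⟩ := hmax
    let F' := F.filter (fun m => ¬ (le m m₀ ∧ le m₀ m))
    have hlt : F'.card < n := by
      rw [← hn]
      apply Finset.card_lt_card
      refine ⟨Finset.filter_subset _ _, fun hsub => ?_⟩
      have := hsub hm₀
      simp only [F', Finset.mem_filter] at this
      exact this.2 ⟨hrefl _, hrefl _⟩
    obtain ⟨x, hx⟩ := ih _ hlt F' rfl
    obtain ⟨x', hx'1, hx'2⟩ := hsolve m₀ x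
    refine ⟨x', fun m hmF => ?_⟩
    by_cases hc : le m m₀ ∧ le m₀ m
    · exact hx'2 m hc.1 hc.2
    · rw [← hx m (by simp only [F', Finset.mem_filter]; exact ⟨hmF, hc⟩)]
      apply hread
      intro m' hm'
      apply hx'1
      intro hcc
      have h1 : le m₀ m := htrans _ _ _ hcc.2 hm'
      exact hc ⟨hm m hmF h1, h1⟩

end Pool.Agent.W729.SJ
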