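import Pool.Agent.W729.SJ.FinCase

set_option autoImplicit false

namespace Pool.Agent.W729.SJ

open Function

variable {M : Type} [Monoid M]

theorem unop_mem_closure (K : Finset Mᵐᵒᵖ) (t : Mᵐᵒᵖ)
    (ht : t ∈ Submonoid.closure (K : Set Mᵐᵒᵖ)) :
    t.unop ∈ Submonoid.closure (MulOpposite.unop '' (K : Set Mᵐᵒᵖ)) := by
  induction ht using Submonoid.closure_induction with
  | mem x hx => exact Submonoid.subset_closure ⟨x, hx, rfl⟩
  | one => exact Submonoid.one_mem _
  | mul x y _ _ hx hy =>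
    rw [MulOpposite.unop_mul]
    exact Submonoid.mul_mem _ hy hx

theorem surj_op_of_finite
    (hfin : ∀ (K : Finset M) (m : M),
      {m' : M | (∃ t ∈ Submonoid.closure (K : Set M), m' = m * t) ∧
        ∃ t ∈ Submonoid.closure (K : Set M), m = m' * t}.Finite) : Surjunctive Mᵐᵒᵖ := by
  classical
  apply surj_of_finite
  intro K m
  have h1 := hfin (K.image MulOpposite.unop) m.unop
  refine (h1.image MulOpposite.op).subset ?_
  rintro m' ⟨⟨t, ht, rfl⟩, ⟨t', ht', hm⟩⟩
  refine ⟨m.unop * t.unop, ⟨⟨t.unop, ?_, rfl⟩, ⟨t'.unop, ?_, ?_⟩⟩, ?_⟩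
  · rw [Finset.coe_image]
    exact unop_mem_closure K t ht
  · rw [Finset.coe_image]
    exact unop_mem_closure K t' ht'
  · have h2 := congrArg MulOpposite.unop hm
    rw [MulOpposite.unop_mul, MulOpposite.unop_mul] at h2
    exact h2
  · apply MulOpposite.unop_injective
    rw [MulOpposite.unop_op, MulOpposite.unop_mul]

end Pool.Agent.W729.SJ
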