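import Pool.Agent.W729.SJ.UnitsCase

set_option autoImplicit false

namespace Pool.Agent.W729.SJ

open Function

variable {M : Type} [Monoid M]

theorem units_of_mul (hN : ∀ s m : M, s * m = m → IsUnit s) (s t : M) (h : IsUnit (s * t)) :
    IsUnit s ∧ IsUnit t := by
  obtain ⟨u, hu⟩ := h
  have h1 : s * (t * (u⁻¹ : Mˣ)) = 1 := by
    rw [← mul_assoc, ← hu, Units.mul_inv]
  have h2 : IsUnit ((t * (u⁻¹ : Mˣ)) * s) := by
    apply hN _ (t * (u⁻¹ : Mˣ))
    rw [mul_assoc, h1, mul_one]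
  have h3 : (t * (u⁻¹ : Mˣ)) * s = 1 := by
    have h4 : ((t * (u⁻¹ : Mˣ)) * s) * ((t * (u⁻¹ : Mˣ)) * s) = ((t * (u⁻¹ : Mˣ)) * s) * 1 := by
      rw [mul_one]
      calc ((t * (u⁻¹ : Mˣ)) * s) * ((t * (u⁻¹ : Mˣ)) * s)
          = (t * (u⁻¹ : Mˣ)) * (s * (t * (u⁻¹ : Mˣ))) * s := by simp only [mul_assoc]
        _ = (t * (u⁻¹ : Mˣ)) * s := by rw [h1, mul_one]
    exact h2.mul_left_cancel h4
  have hs : IsUnit s := ⟨⟨s, t * (u⁻¹ : Mˣ), h1, h3⟩, rfl⟩
  refine ⟨hs, ?_⟩
  have ht : IsUnit (t * (u⁻¹ : Mˣ)) := ⟨⟨t * (u⁻¹ : Mˣ), s, h3, h1⟩, rfl⟩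
  have h5 : t = t * (u⁻¹ : Mˣ) * u := by rw [mul_assoc, Units.inv_mul, mul_one]
  rw [h5]
  exact ht.mul u.isUnit

/-- If only units stabilise an element from the left, units act freely from the right, and the
group of units is surjunctive, then the monoid is surjunctive. -/
theorem surj_of_units (hN : ∀ s m : M, s * m = m → IsUnit s)
    (hF : ∀ (m : M) (u : Mˣ), m * u = m → u = 1) (hU : Surjunctive Mˣ) : Surjunctive M := by
  classical
  intro A _ τ hτ hinj d
  have hI := units_of_mul hN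
  obtain ⟨S, μ, hμ⟩ := id hτ
  have hread' : ∀ (x x' : M → A) (m : M), (∀ s : S, x (s.1 * m) = x' (s.1 * m)) → τ x m = τ x' m := by
    intro x x' m h
    rw [hμ, hμ]
    congr 1
    funext s
    exact h s
  apply attains_of_finite τ hτ
  apply finite_of_blocks τ (fun m' m => ∃ t, m' = t * m)
  · exact fun m => ⟨1, (one_mul m).symm⟩
  · rintro a b c ⟨t, rfl⟩ ⟨t', rfl⟩
    exact ⟨t * t', (mul_assoc _ _ _).symm⟩
  · intro x x' m h
    exact hread' x x' m (fun s => h _ ⟨s.1, rfl⟩)
  · intro m₀ x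
    obtain ⟨c, hc1, hc2⟩ := solve_units hF hI hU τ S μ hμ hinj (fun m => x (m * m₀))
      (fun u => d (u * m₀))
    -- invariance of the solution under the stabiliser of `m₀`
    have hinv : ∀ h : Mˣ, (h : M) * m₀ = m₀ → ∀ m, c (m * h) = c m := by
      intro h hh
      have h1 : (fun m => c (m * h)) = c := by
        apply hinj
        funext m
        by_cases hm : IsUnit m
        · obtain ⟨u, rfl⟩ := hm
          have h2 : τ (fun m => c (m * h)) u = τ c ((u * h : Mˣ) : M) := by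
            rw [hμ, hμ]
            congr 1
            funext s
            rw [Units.val_mul, mul_assoc]
          rw [h2, hc2, hc2, Units.val_mul, mul_assoc, hh]
        · apply hread'
          intro s
          have h3 : ¬ IsUnit (s.1 * m) := fun hc => hm (hI _ _ hc).2
          have h4 : ¬ IsUnit (s.1 * m * h) := fun hc => h3 (hI _ _ hc).1
          rw [hc1 _ h3, hc1 _ h4, mul_assoc, hh]
      intro m
      exact congrFun h1 m
    have hwell : ∀ u u' : Mˣ, (u : M) * m₀ = u' * m₀ → c u = c u' := by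
      intro u u' h
      have h1 : ((u⁻¹ * u' : Mˣ) : M) * m₀ = m₀ := by
        rw [Units.val_mul, mul_assoc, ← h, ← mul_assoc, Units.inv_mul, one_mul]
      have h2 := hinv _ h1 u
      rw [← Units.val_mul, mul_inv_cancel_left] at h2
      exact h2.symm
    let x' : M → A := fun m => if h : ∃ u : Mˣ, m = u * m₀ then c h.choose else x m
    have hx'1 : ∀ u : Mˣ, x' (u * m₀) = c u := by
      intro u
      have h : ∃ u' : Mˣ, (u : M) * m₀ = u' * m₀ := ⟨u, rfl⟩
      simp only [x', h, dif_pos]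
      exact hwell _ _ h.choose_spec.symm
    have hx'2 : ∀ m, (¬ ∃ u : Mˣ, m = u * m₀) → x' m = x m := by
      intro m h
      simp only [x', h, dif_neg, not_false_eq_true]
    refine ⟨x', ?_, ?_⟩
    · intro m hm
      apply hx'2
      rintro ⟨u, rfl⟩
      apply hm
      refine ⟨⟨u, rfl⟩, ⟨((u⁻¹ : Mˣ) : M), ?_⟩⟩
      rw [← mul_assoc, Units.inv_mul, one_mul]
    · rintro m ⟨t, rfl⟩ ⟨t', ht'⟩
      have h1 : IsUnit (t' * t) := by
        apply hN _ m₀
        rw [mul_assoc, ← ht']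
      obtain ⟨u, rfl⟩ := (hI _ _ h1).2
      rw [← hc2 u, hμ, hμ]
      congr 1
      funext s
      rw [← mul_assoc]
      by_cases hs : IsUnit (s.1 * (u : M))
      · obtain ⟨w, hw⟩ := hs
        rw [← hw, hx'1]
      · rw [hc1 _ hs]
        apply hx'2
        rintro ⟨w, hw⟩
        apply hs
        have h2 : (((w⁻¹ : Mˣ) : M) * (s.1 * u)) * m₀ = m₀ := by
          rw [mul_assoc, hw, ← mul_assoc, Units.inv_mul, one_mul]
        exact (hI _ _ (hN _ _ h2)).2

/-- the unit group of the opposite monoid is isomorphic to the unit group -/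
noncomputable def unitsOp (M : Type) [Monoid M] : (Mᵐᵒᵖ)ˣ ≃* Mˣ :=
  (Units.opEquiv (M := M)).trans (MulEquiv.inv' (Mˣ)).symm

theorem surj_op_iff (hN : ∀ m s : M, m * s = m → IsUnit s)
    (hF : ∀ (u : Mˣ) (m : M), (u : M) * m = m → u = 1) :
    Surjunctive Mᵐᵒᵖ ↔ Surjunctive Mˣ := by
  constructor
  · intro h
    have h1 : Surjunctive (Mᵐᵒᵖ)ˣ := surj_of_hom (Units.coeHom (Mᵐᵒᵖ)) Units.val_injective h
    exact surj_of_hom (unitsOp M).symm.toMonoidHom (unitsOp M).symm.injective h1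
  · intro h
    have h1 : Surjunctive (Mᵐᵒᵖ)ˣ :=
      surj_of_hom (unitsOp M).toMonoidHom (unitsOp M).injective h
    refine surj_of_units ?_ ?_ h1
    · intro s m hsm
      have h2 : m.unop * s.unop = m.unop := by
        rw [← MulOpposite.unop_mul, hsm]
      exact isUnit_unop.1 (hN _ _ h2)
    · intro m u hmu
      have h2 : (MulOpposite.unop (Units.opEquiv u) : Mˣ) = 1 := by
        apply hF _ m.unop
        have h3 := congrArg MulOpposite.unop hmu
        rw [MulOpposite.unop_mul] at h3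
        exact h3
      have h4 : Units.opEquiv u = 1 := MulOpposite.unop_injective h2
      exact (MulEquiv.map_eq_one_iff _).1 h4

end Pool.Agent.W729.SJ
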