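import Pool.Agent.W729.SJ.Defs

set_option autoImplicit false

namespace Pool.Agent.W729.SJ

open Function

variable {M : Type} [Monoid M]

/-- right coset relation `m ~ m * u` for units `u` -/
def cos (M : Type) [Monoid M] : Setoid M where
  r a b := ∃ u : Mˣ, b = a * u
  iseqv :=
    { refl := fun a => ⟨1, by simp⟩
      symm := by
        rintro a b ⟨u, rfl⟩
        exact ⟨u⁻¹, by simp⟩
      trans := by
        rintro a b c ⟨u, rfl⟩ ⟨v, rfl⟩
        exact ⟨u * v, by simp [mul_assoc]⟩ }

/-- chosen representative of a coset -/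
noncomputable def rep (m : M) : M := Quotient.out (Quotient.mk (cos M) m)

theorem rep_spec (m : M) : ∃ u : Mˣ, m = rep m * u :=
  Quotient.exact (s := cos M) (Quotient.out_eq (Quotient.mk (cos M) m))

theorem rep_mul_unit (m : M) (u : Mˣ) : rep (m * u) = rep m := by
  unfold rep
  congr 1
  apply Quotient.sound
  exact ⟨u⁻¹, by simp⟩

/-- the unit relating an element to its representative -/
noncomputable def vv (m : M) : Mˣ := (rep_spec m).choose

theorem vv_spec (m : M) : m = rep m * vv m := (rep_spec m).choose_spec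

theorem rep_rep (m : M) : rep (rep m) = rep m := by
  conv_rhs => rw [vv_spec m]
  rw [rep_mul_unit]

section
variable (hF : ∀ (m : M) (u : Mˣ), m * u = m → u = 1)
include hF

theorem vv_mul_unit (m : M) (u : Mˣ) : vv (m * u) = vv m * u := by
  have h1 : rep m * (vv (m * u) : Mˣ) = rep m * (vv m * u : Mˣ) := by
    have h2 := vv_spec (m * u)
    rw [rep_mul_unit] at h2
    rw [← h2, Units.val_mul, ← mul_assoc, ← vv_spec m]
  have h3 : rep m * ((vv (m * u) * (vv m * u)⁻¹ : Mˣ) : M) = rep m := by
    rw [Units.val_mul, ← mul_assoc, h1, mul_assoc, ← Units.val_mul, mul_inv_cancel, Units.val_one,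
      mul_one]
  have h4 := hF _ _ h3
  exact mul_inv_eq_one.1 h4

theorem vv_rep (m : M) : vv (rep m) = 1 := by
  apply hF (rep m)
  have := vv_spec (rep m)
  rw [rep_rep] at this
  exact this.symm

end

theorem rep_unit (u : Mˣ) : rep (u : M) = rep (1 : M) := by
  have := rep_mul_unit (1 : M) u
  rwa [one_mul] at this

theorem isUnit_of_rep {m : M} (h : rep m = rep (1 : M)) : IsUnit m := by
  rw [vv_spec m, h]
  have h1 := vv_spec (1 : M)
  have h2 : rep (1 : M) = ((vv (1 : M))⁻¹ : Mˣ) := by
    have h3 : rep (1 : M) = 1 * ((vv (1 : M))⁻¹ : Mˣ) := (Units.eq_mul_inv_iff_mul_eq _).2 h1.symm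
    rwa [one_mul] at h3
  rw [h2, ← Units.val_mul]
  exact Units.isUnit _

/-- Solving the block of units with the remaining cells prescribed. -/
theorem solve_units
    (hF : ∀ (m : M) (u : Mˣ), m * u = m → u = 1)
    (hI : ∀ s t : M, IsUnit (s * t) → IsUnit s ∧ IsUnit t)
    (hU : Surjunctive Mˣ) {A : Type} [Finite A]
    (τ : (M → A) → (M → A)) (S : Finset M) (μ : (S → A) → A)
    (hμ : ∀ (x : M → A) (m : M), τ x m = μ (fun s => x (s.1 * m)))
    (hinj : Injective τ) (y : M → A) (d : Mˣ → A) :
    ∃ c : M → A, (∀ m, ¬ IsUnit m → c m = y m) ∧ ∀ u : Mˣ, τ c u = d u := by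
  classical
  let r1 : M := rep (1 : M)
  let R : Finset M := insert r1 (S.image (fun s => rep (s * r1)))
  have hr1 : r1 ∈ R := Finset.mem_insert_self _ _
  have hRs : ∀ s : S, rep (s.1 * r1) ∈ R := fun s =>
    Finset.mem_insert_of_mem (Finset.mem_image_of_mem (fun s => rep (s * r1)) s.2)
  have hRrep : ∀ r ∈ R, rep r = r := by
    intro r hr
    rcases Finset.mem_insert.1 hr with h | h
    · rw [h]; exact rep_rep 1
    · obtain ⟨s, _, rfl⟩ := Finset.mem_image.1 h
      exact rep_rep _
  -- the induced automaton over the unit group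
  let T : (Mˣ → (R → A)) → (Mˣ → (R → A)) := fun X u r =>
    if r.1 = r1 then μ (fun s => X (vv (s.1 * r1) * u) ⟨rep (s.1 * r1), hRs s⟩) else X u r
  have hT : IsCA Mˣ T := by
    let K : Finset Mˣ := insert 1 (S.image (fun s => vv (s * r1)))
    have hK1 : (1 : Mˣ) ∈ K := Finset.mem_insert_self _ _
    have hKs : ∀ s : S, vv (s.1 * r1) ∈ K := fun s =>
      Finset.mem_insert_of_mem (Finset.mem_image_of_mem (fun s => vv (s * r1)) s.2)
    refine ⟨K, fun g r => if r.1 = r1 then
      μ (fun s => g ⟨vv (s.1 * r1), hKs s⟩ ⟨rep (s.1 * r1), hRs s⟩) else g ⟨1, hK1⟩ r, ?_⟩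
    intro X u
    funext r
    simp only [T, one_mul]
  -- reading a cell near the unit block through the coset coordinates
  have hsu : ∀ (s : M) (u : Mˣ), rep (s * u) = rep (s * r1) ∧ vv (s * u) = vv (s * r1) * vv (u : M) := by
    intro s u
    have h1 : s * u = (s * r1) * (vv (u : M) : Mˣ) := by
      conv_lhs => rw [vv_spec (u : M)]
      rw [rep_unit, mul_assoc]
    rw [h1]
    exact ⟨rep_mul_unit _ _, vv_mul_unit hF _ _⟩
  -- configuration of the monoid from one of the unit group
  have hnonunit : ∀ (s u : M), ¬ IsUnit u → ¬ IsUnit (s * u) := fun s u hu hc => hu (hI _ _ hc).2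
  have hTinj : Injective T := by
    intro X X' hXX
    let ext : (Mˣ → (R → A)) → (M → A) := fun X m =>
      if h : rep m ∈ R then X (vv m) ⟨rep m, h⟩ else y m
    have hoff : ∀ m, ¬ IsUnit m → ext X m = ext X' m := by
      intro m hm
      simp only [ext]
      split_ifs with h
      · have h1 := congrFun (congrFun hXX (vv m)) ⟨rep m, h⟩
        have h2 : ¬ rep m = r1 := fun hc => hm (isUnit_of_rep hc)
        simpa only [T, h2, if_false] using h1
      · rfl
    have hval : ∀ (X : Mˣ → (R → A)) (u : Mˣ), τ (ext X) u = T X (vv (u : M)) ⟨r1, hr1⟩ := by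
      intro X u
      rw [hμ]
      simp only [T, if_true]
      congr 1
      funext s
      have h1 := hsu s.1 u
      have h2 : rep (s.1 * (u : M)) ∈ R := by rw [h1.1]; exact hRs s
      simp only [ext, h2, dif_pos]
      congr 1
      · rw [h1.2]
      · exact Subtype.ext h1.1
    have hee : ext X = ext X' := by
      apply hinj
      funext m
      by_cases hm : IsUnit m
      · obtain ⟨u, rfl⟩ := hm
        rw [hval, hval, hXX]
      · rw [hμ, hμ]
        congr 1
        funext s
        exact hoff _ (hnonunit _ _ hm)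
    funext w r
    have h1 := congrFun hee (r.1 * w)
    have h2 : rep (r.1 * (w : M)) = r.1 := by rw [rep_mul_unit, hRrep _ r.2]
    have h3 : vv (r.1 * (w : M)) = w := by
      rw [vv_mul_unit hF]
      have : vv r.1 = 1 := by
        conv_lhs => rw [← hRrep _ r.2]
        exact vv_rep hF _
      rw [this, one_mul]
    have h4 : rep (r.1 * (w : M)) ∈ R := by rw [h2]; exact r.2
    simp only [ext, h4, dif_pos, h3] at h1
    have h5 : (⟨rep (r.1 * (w : M)), h4⟩ : R) = r := Subtype.ext h2
    rw [h5] at h1
    exact h1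
  obtain ⟨X, hX⟩ := hU (R → A) T hT hTinj
    (fun w r => if r.1 = r1 then
      (if h : IsUnit (r1 * (w : M)) then d h.unit else y 1) else y (r.1 * w))
  refine ⟨fun m => if IsUnit m then X (vv m) ⟨r1, hr1⟩ else y m, ?_, ?_⟩
  · intro m hm
    simp only [hm, if_false]
  · intro u
    rw [hμ]
    have h1 := congrFun (congrFun hX (vv (u : M))) ⟨r1, hr1⟩
    have h2 : r1 * (vv (u : M) : Mˣ) = (u : M) := by
      conv_rhs => rw [vv_spec (u : M)]
      rw [rep_unit]
    simp only [T, if_true] at h1
    have h3 : IsUnit (r1 * ((vv (u : M) : Mˣ) : M)) := by rw [h2]; exact u.isUnit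
    rw [dif_pos h3] at h1
    have h4 : h3.unit = u := by
      apply Units.ext
      rw [IsUnit.unit_spec, h2]
    rw [h4] at h1
    rw [← h1]
    congr 1
    funext s
    have h5 := hsu s.1 u
    by_cases hsU : IsUnit (s.1 * (u : M))
    · simp only [hsU, if_true]
      have h6 : rep (s.1 * r1) = r1 := by
        rw [← h5.1]
        obtain ⟨w, hw⟩ := hsU
        rw [← hw, rep_unit]
      congr 1
      · exact h5.2
      · exact Subtype.ext h6.symm
    · simp only [hsU, if_false]
      have h7 := congrFun (congrFun hX (vv (s.1 * r1) * vv (u : M))) ⟨rep (s.1 * r1), hRs s⟩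
      have h8 : ¬ rep (s.1 * r1) = r1 := by
        intro hc
        apply hsU
        apply isUnit_of_rep
        rw [h5.1]
        exact hc
      simp only [T, h8, if_false] at h7
      rw [h7, ← h5.2, ← h5.1, ← vv_spec]

end Pool.Agent.W729.SJ
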